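import Pool.Agent.P8H73.KV.Stm

set_option autoImplicit false

namespace Pool.Agent.P8H62.KV

open Finset Pool.Agent.Y844.BT Pool.Agent.P8H73.KV
open Pool.Agent.H469R2.NK (e norm_e e_add conj_e e_zero)

/-- the numerical inequality for the factors -/
theorem bil_num (s t : ℕ) (hs : 1 ≤ s) (ht : 1 ≤ t) (hst : s ≤ t + 1) (hts : t ≤ s + 1)
    (C a b : ℝ) (hC : 1 ≤ C) (ha : 1 ≤ a) (hb : 1 ≤ b) :
    27200 * ((s : ℝ) ^ 2 * (t : ℝ) ^ 2) * ((C * a) ^ (13 * s ^ 2) * (C * b) ^ (13 * t ^ 2)) ≤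
      (1000 * C ^ 2 * a * b) ^ (40 * (s * t)) := by
  have hCa : 1 ≤ C * a := one_le_mul_of_one_le_of_one_le hC ha
  have hCb : 1 ≤ C * b := one_le_mul_of_one_le_of_one_le hC hb
  have e1 : (C * a) ^ (13 * s ^ 2) ≤ (C * a) ^ (26 * (s * t)) := by
    apply pow_le_pow_right₀ hCa
    nlinarith
  have e2 : (C * b) ^ (13 * t ^ 2) ≤ (C * b) ^ (26 * (s * t)) := by
    apply pow_le_pow_right₀ hCb
    nlinarith
  have hst1 : 1 ≤ s * t := Nat.one_le_iff_ne_zero.2 (by positivity)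
  have e3 : ((s : ℝ) ^ 2 * (t : ℝ) ^ 2) ≤ 1000 ^ (s * t) := by
    have h1 : ((s * t : ℕ) : ℝ) ≤ 2 ^ (s * t) := by exact_mod_cast Nat.lt_two_pow_self.le
    calc ((s : ℝ) ^ 2 * (t : ℝ) ^ 2) = ((s * t : ℕ) : ℝ) ^ 2 := by push_cast; ring
      _ ≤ (2 ^ (s * t)) ^ 2 := by gcongr
      _ = 4 ^ (s * t) := by rw [← pow_mul, mul_comm, pow_mul]; norm_num
      _ ≤ 1000 ^ (s * t) := by gcongr; norm_num
  have e4 : (27200 : ℝ) ≤ 1000 ^ (13 * (s * t)) := by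
    calc (27200 : ℝ) ≤ 1000 ^ 2 := by norm_num
      _ ≤ 1000 ^ (13 * (s * t)) := pow_le_pow_right₀ (by norm_num) (by omega)
  have hC2 : 1 ≤ C ^ 2 * a * b := by
    have : 1 ≤ (C * a) * (C * b) := one_le_mul_of_one_le_of_one_le hCa hCb
    calc (1 : ℝ) ≤ (C * a) * (C * b) := this
      _ = _ := by ring
  calc 27200 * ((s : ℝ) ^ 2 * (t : ℝ) ^ 2) * ((C * a) ^ (13 * s ^ 2) * (C * b) ^ (13 * t ^ 2))
      ≤ 1000 ^ (13 * (s * t)) * 1000 ^ (s * t) * ((C * a) ^ (26 * (s * t)) * (C * b) ^ (26 * (s * t))) := by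
        gcongr
    _ = 1000 ^ (14 * (s * t)) * (C ^ 2 * a * b) ^ (26 * (s * t)) := by
        rw [← pow_add, ← mul_pow]
        congr 2
        · ring
        · ring
    _ ≤ 1000 ^ (40 * (s * t)) * (C ^ 2 * a * b) ^ (40 * (s * t)) := by
        apply mul_le_mul
        · exact pow_le_pow_right₀ (by norm_num) (by omega)
        · exact pow_le_pow_right₀ hC2 (by omega)
        · positivity
        · positivity
    _ = _ := by
        rw [← mul_pow]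
        congr 1
        ring

theorem bil : S_ENU → S_BIL := by
  rintro ⟨C, hC1, hC⟩
  refine ⟨1000 * C ^ 2, by nlinarith, ?_⟩
  intro s t hs ht hst hts k _ 𝓜 𝓝 α β hα hβ
  suffices hmain : ∀ (α β : ℕ → ℂ), (∀ m ∈ 𝓜, ‖α m‖ ≤ 1) → (∀ n ∈ 𝓝, ‖β n‖ ≤ 1) →
    ∀ (T : ℝ), 0 ≤ T → ∀ (u : ZMod k), IsUnit u → ∀ (M N M1 N1 : ℝ), 0 < M1 → 0 < N1 → 1 ≤ M → 1 ≤ N →
    (∀ m ∈ 𝓜, 1 ≤ m ∧ M1 ≤ (m : ℝ) ∧ (m : ℝ) ≤ M) → (∀ n ∈ 𝓝, 1 ≤ n ∧ N1 ≤ (n : ℝ) ∧ (n : ℝ) ≤ N) →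
    (∀ m ∈ 𝓜, Nat.Coprime m k) → (∀ n ∈ 𝓝, Nat.Coprime n k) →
    ∀ (H μ : ℝ), H = k * (1 + |T| / (M1 * N1)) → 0 ≤ μ →
    H * (1 + N ^ (2 * s) / (N1 * H)) * (1 + M ^ (2 * t) / (M1 * H)) ≤ Real.exp (-μ) * (M ^ t * N ^ s) →
    ‖∑ m ∈ 𝓜, ∑ n ∈ 𝓝, α m * β n * Ps k T u (1 / (n : ℝ)) (1 / (m : ℝ)) (n : ZMod k)⁻¹ (m : ZMod k)⁻¹‖ ≤
      M * N * ((1000 * C ^ 2 * (1 + s * Real.log N) * (1 + t * Real.log M)) ^ 20 *
        Real.exp (-μ / (2 * s * t))) by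
    intro T u hu
    rcases le_total 0 T with hT | hT
    · exact hmain α β hα hβ T hT u hu
    · intro M N M1 N1 h1 h2 h3 h4 h5 h6 h7 h8 H μ h9 h10 h11
      have h12 := hmain (fun m => (starRingEnd ℂ) (α m)) (fun n => (starRingEnd ℂ) (β n))
        (fun m hm => by rw [RCLike.norm_conj]; exact hα m hm) (fun n hn => by rw [RCLike.norm_conj]; exact hβ n hn)
        (-T) (by linarith) (-u) hu.neg M N M1 N1 h1 h2 h3 h4 h5 h6 h7 h8 H μ (by rw [abs_neg]; exact h9) h10 h11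
      refine le_trans (le_of_eq ?_) h12
      rw [← RCLike.norm_conj, map_sum]
      congr 1
      apply sum_congr rfl
      intro m _
      rw [map_sum]
      apply sum_congr rfl
      intro n _
      rw [(starRingEnd ℂ).map_mul, (starRingEnd ℂ).map_mul]
      congr 1
      unfold Ps
      rw [(starRingEnd ℂ).map_mul, conj_e, conj_psi]
      congr 2 <;> ring
  intro α β hα hβ T hT u hu M N M1 N1 hM1 hN1 hM hN h𝓜 h𝓝 hcM hcN H μ hH hμ hcond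
  rw [abs_of_nonneg hT] at hH
  have hk1 : 1 ≤ k := Nat.pos_of_ne_zero (NeZero.ne k)
  have hk0 : (0 : ℝ) < k := by exact_mod_cast hk1
  set g : ℝ := 1 + T / (M1 * N1) with hg
  have hg0 : 0 < g := by positivity
  have hM0 : 0 < M := by linarith
  have hN0 : 0 < N := by linarith
  have hs0 : (0 : ℝ) < s := by exact_mod_cast hs
  have ht0 : (0 : ℝ) < t := by exact_mod_cast ht
  have hs1 : (1 : ℝ) ≤ s := by exact_mod_cast hs
  have ht1 : (1 : ℝ) ≤ t := by exact_mod_cast ht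
  have hH0 : 0 < H := by rw [hH]; positivity
  have hb := bil0 k 𝓜 𝓝 α β hα hβ T hT u hu s t hs ht M1 N1 hM1 hN1 (fun m hm => (h𝓜 m hm).2.1)
    (fun n hn => (h𝓝 n hn).2.1)
  rw [← hg, ← hH] at hb
  have hlN : 0 ≤ Real.log N := Real.log_nonneg hN
  have hlM : 0 ≤ Real.log M := Real.log_nonneg hM
  set a : ℝ := 1 + s * Real.log N with ha
  set b : ℝ := 1 + t * Real.log M with hbb
  have ha1 : 1 ≤ a := by
    have : (0 : ℝ) ≤ s * Real.log N := by positivity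
    linarith
  have hb1 : 1 ≤ b := by
    have : (0 : ℝ) ≤ t * Real.log M := by positivity
    linarith
  set Z : ℝ := N ^ (2 * s) / (N1 * H) with hZ
  set Z' : ℝ := M ^ (2 * t) / (M1 * H) with hZ'
  have hZ0 : 0 ≤ Z := by positivity
  have hZ0' : 0 ≤ Z' := by positivity
  have hEs : (En k 𝓝 s (2 * s / (N1 * g)) : ℝ) ≤ 2 * s * (1 + Z) * N ^ s * (C * a) ^ (13 * s ^ 2) := by
    have h1 := hC s k N (2 * s / (N1 * g)) 𝓝 hs hk1 hN (by positivity)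
      (fun n hn => ⟨⟨(h𝓝 n hn).1, (h𝓝 n hn).2.2⟩, hcN n hn⟩)
    have h2 : N ^ (2 * s) * (2 * s / (N1 * g)) / k = 2 * s * Z := by
      rw [hZ, hH]
      field_simp
    rw [h2] at h1
    refine h1.trans ?_
    apply mul_le_mul_of_nonneg_right _ (by positivity)
    apply mul_le_mul_of_nonneg_right _ (by positivity)
    nlinarith
  have hEt : (En k 𝓜 t (8 * t / (M1 * g)) : ℝ) ≤ 8 * t * (1 + Z') * M ^ t * (C * b) ^ (13 * t ^ 2) := by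
    have h1 := hC t k M (8 * t / (M1 * g)) 𝓜 ht hk1 hM (by positivity)
      (fun n hn => ⟨⟨(h𝓜 n hn).1, (h𝓜 n hn).2.2⟩, hcM n hn⟩)
    have h2 : M ^ (2 * t) * (8 * t / (M1 * g)) / k = 8 * t * Z' := by
      rw [hZ', hH]
      field_simp
    rw [h2] at h1
    refine h1.trans ?_
    apply mul_le_mul_of_nonneg_right _ (by positivity)
    apply mul_le_mul_of_nonneg_right _ (by positivity)
    nlinarith
  have hcM' : (𝓜.card : ℝ) ≤ M := card_le_of 𝓜 M hM0.le fun m hm => ⟨(h𝓜 m hm).1, (h𝓜 m hm).2.2⟩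
  have hcN' : (𝓝.card : ℝ) ≤ N := card_le_of 𝓝 N hN0.le fun n hn => ⟨(h𝓝 n hn).1, (h𝓝 n hn).2.2⟩
  have hnum := bil_num s t hs ht hst hts C a b hC1 ha1 hb1
  set Λ : ℝ := (C * a) ^ (13 * s ^ 2) with hΛ
  set Λ' : ℝ := (C * b) ^ (13 * t ^ 2) with hΛ'
  have hΛ0 : 0 ≤ Λ := by positivity
  have hΛ0' : 0 ≤ Λ' := by positivity
  set Es : ℝ := (En k 𝓝 s (2 * s / (N1 * g)) : ℝ) with hEsd
  set Et : ℝ := (En k 𝓜 t (8 * t / (M1 * g)) : ℝ) with hEtd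
  have hEs0 : 0 ≤ Es := Nat.cast_nonneg _
  have hEt0 : 0 ≤ Et := Nat.cast_nonneg _
  have hcards : (((𝓜.card : ℝ) ^ (s - 1)) ^ t * (((𝓝.card : ℝ) ^ s)) ^ (t - 1)) ^ 2 ≤
      ((M ^ (s - 1)) ^ t * (N ^ s) ^ (t - 1)) ^ 2 := by gcongr
  have hpw : ((M ^ (s - 1)) ^ t * (N ^ s) ^ (t - 1)) ^ 2 * ((M ^ t * N ^ s) * (M ^ t * N ^ s)) =
      (M * N) ^ (2 * (s * t)) := by
    obtain ⟨s', rfl⟩ : ∃ s', s = s' + 1 := ⟨s - 1, by omega⟩
    obtain ⟨t', rfl⟩ : ∃ t', t = t' + 1 := ⟨t - 1, by omega⟩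
    rw [Nat.add_sub_cancel, Nat.add_sub_cancel]
    rw [mul_pow M N]
    ring
  have hfin : ‖∑ m ∈ 𝓜, ∑ n ∈ 𝓝, α m * β n * Ps k T u (1 / (n : ℝ)) (1 / (m : ℝ)) (n : ZMod k)⁻¹
      (m : ZMod k)⁻¹‖ ^ (2 * (s * t)) ≤ (M * N * ((1000 * C ^ 2 * a * b) ^ 20 *
        Real.exp (-μ / (2 * s * t)))) ^ (2 * (s * t)) := by
    calc _ ≤ ((M ^ (s - 1)) ^ t * (N ^ s) ^ (t - 1)) ^ 2 * (1700 * (s * t) * H * (Es * Et)) :=
          hb.trans (mul_le_mul_of_nonneg_right hcards (by positivity))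
      _ ≤ ((M ^ (s - 1)) ^ t * (N ^ s) ^ (t - 1)) ^ 2 * (1700 * (s * t) * H *
          ((2 * s * (1 + Z) * N ^ s * Λ) * (8 * t * (1 + Z') * M ^ t * Λ'))) := by
          gcongr
      _ = ((M ^ (s - 1)) ^ t * (N ^ s) ^ (t - 1)) ^ 2 * (27200 * ((s : ℝ) ^ 2 * (t : ℝ) ^ 2) * (Λ * Λ') *
          ((H * (1 + Z) * (1 + Z')) * (M ^ t * N ^ s))) := by ring
      _ ≤ ((M ^ (s - 1)) ^ t * (N ^ s) ^ (t - 1)) ^ 2 * (27200 * ((s : ℝ) ^ 2 * (t : ℝ) ^ 2) * (Λ * Λ') *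
          ((Real.exp (-μ) * (M ^ t * N ^ s)) * (M ^ t * N ^ s))) := by
          gcongr
      _ = (((M ^ (s - 1)) ^ t * (N ^ s) ^ (t - 1)) ^ 2 * ((M ^ t * N ^ s) * (M ^ t * N ^ s))) *
          ((27200 * ((s : ℝ) ^ 2 * (t : ℝ) ^ 2) * (Λ * Λ')) * Real.exp (-μ)) := by ring
      _ ≤ (M * N) ^ (2 * (s * t)) * ((1000 * C ^ 2 * a * b) ^ (40 * (s * t)) * Real.exp (-μ)) := by
          rw [hpw]
          gcongr
      _ = _ := by
          rw [mul_pow (M * N) _, mul_pow _ (Real.exp _), ← pow_mul, ← Real.exp_nat_mul]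
          congr 2
          · congr 1
            ring
          · congr 1
            push_cast
            field_simp
  have hn : 2 * (s * t) ≠ 0 := by positivity
  exact (pow_le_pow_iff_left₀ (norm_nonneg _) (by positivity) hn).1 hfin

end Pool.Agent.P8H62.KV
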