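import Pool.Agent.P8H73.KV.Stm

set_option autoImplicit false

namespace Pool.Agent.P8H62.KV

open Finset Pool.Agent.Y844.BT Pool.Agent.P8H73.KV

theorem core : S_BIL → S_CORE := by
  rintro ⟨C, hC1, hC⟩
  refine ⟨C, hC1, ?_⟩
  intro s t hs ht hst hts k l c L Δ e₀ 𝓜 𝓝 α β A M N M1 N1 G0 Qlo Qhi μ hk hlk hΔ he₀ hek hA hα hβ
    hM1 hN1 hG0 hGM hGN hμ h𝓜 h𝓝 hQ hcond
  have hk0 : (0 : ℝ) < k := by exact_mod_cast hk
  have he0 : (0 : ℝ) < e₀ := by exact_mod_cast he₀
  have hM : 1 ≤ M := hG0.trans hGM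
  have hN : 1 ≤ N := hG0.trans hGN
  have hM0 : 0 < M := by linarith
  have hN0 : 0 < N := by linarith
  have : NeZero k := ⟨by omega⟩
  set G : ℕ := ⌊G0⌋₊ with hG
  have hG1 : 1 ≤ G := Nat.le_floor (by simpa using hG0)
  have hG1' : (1 : ℝ) ≤ G := by exact_mod_cast hG1
  have hGG0 : (G : ℝ) ≤ G0 := Nat.floor_le (by linarith)
  have hG2 : G0 ≤ 2 * G := by
    have := Nat.lt_floor_add_one G0
    rw [← hG] at this
    linarith
  have hlN : 0 ≤ Real.log N := Real.log_nonneg hN
  have hlM : 0 ≤ Real.log M := Real.log_nonneg hM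
  set B : ℝ := (C * (1 + s * Real.log N) * (1 + t * Real.log M)) ^ 20 *
    Real.exp (-μ / (2 * s * t)) with hB
  have hB0 : 0 ≤ B := by positivity
  have key := cls k l c L Δ hΔ 𝓜 𝓝 α β A hA hα hβ e₀ he₀ hek hlk M N B hM hN hB0
    (fun m hm => ⟨⟨by
      have h1 : (0 : ℝ) < m := lt_of_lt_of_le hM1 (h𝓜 m hm).1
      exact_mod_cast h1, (h𝓜 m hm).2.1⟩, (h𝓜 m hm).2.2⟩)
    (fun n hn => ⟨⟨by
      have h1 : (0 : ℝ) < n := lt_of_lt_of_le hN1 (h𝓝 n hn).1
      exact_mod_cast h1, (h𝓝 n hn).2.1⟩, (h𝓝 n hn).2.2⟩)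
    G G hG1 hG1 (by
      intro g hg h hh τ hτ a b ha hb k' _ hk'k hkk' u hu
      rw [mem_Icc] at hg hh
      have hg0 : (0 : ℝ) < g := by exact_mod_cast hg.1
      have hg1 : (1 : ℝ) ≤ g := by exact_mod_cast hg.1
      have hgG : (g : ℝ) ≤ G0 := le_trans (by exact_mod_cast hg.2) hGG0
      have hhG : (h : ℝ) ≤ G0 := le_trans (by exact_mod_cast hh.2) hGG0
      have hk'0 : (0 : ℝ) < k' := by exact_mod_cast Nat.pos_of_ne_zero (NeZero.ne k')
      have hMg : 1 ≤ M / g := by
        rw [le_div_iff₀ hg0]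
        linarith
      have hNg : 1 ≤ N / g := by
        rw [le_div_iff₀ hg0]
        linarith
      set T : ℝ := (h * (k * τ + l) / k : ℝ) / (e₀ * g ^ 2) with hT
      set H : ℝ := k' * (1 + |T| / (M1 / g * (N1 / g))) with hH
      have hH2 : H = k' * (1 + h * |(k : ℝ) * τ + l| / (k * e₀ * (M1 * N1))) := by
        rw [hH, hT, abs_div, abs_div, abs_mul, abs_of_nonneg (Nat.cast_nonneg h : (0 : ℝ) ≤ h),
          abs_of_pos hk0, abs_of_pos (by positivity : (0 : ℝ) < e₀ * g ^ 2)]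
        congr 2
        field_simp
      obtain ⟨hq1, hq2⟩ := hQ k' h τ hτ hk'k hh.1 hhG hkk'
      rw [← hH2] at hq1 hq2
      have hH0 : 0 < H := by
        rw [hH]
        have : 0 ≤ |T| / (M1 / g * (N1 / g)) := by positivity
        positivity
      have h1 := hC s t hs ht hst hts k' (dg 𝓜 g) (dg 𝓝 g) a b ha hb T u hu (M / g) (N / g) (M1 / g) (N1 / g)
        (by positivity) (by positivity) hMg hNg
        (by
          intro m hm
          rw [mem_dg _ _ _ hg.1] at hm
          obtain ⟨h2, h3, _⟩ := h𝓜 _ hm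
          push_cast at h2 h3
          have h4 : (0 : ℝ) < m := by
            have : 0 < (g : ℝ) * m := lt_of_lt_of_le hM1 h2
            exact pos_of_mul_pos_right this hg0.le
          refine ⟨by exact_mod_cast h4, ?_, ?_⟩
          · rw [div_le_iff₀ hg0]; linarith
          · rw [le_div_iff₀ hg0]; linarith)
        (by
          intro m hm
          rw [mem_dg _ _ _ hg.1] at hm
          obtain ⟨h2, h3, _⟩ := h𝓝 _ hm
          push_cast at h2 h3
          have h4 : (0 : ℝ) < m := by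
            have : 0 < (g : ℝ) * m := lt_of_lt_of_le hN1 h2
            exact pos_of_mul_pos_right this hg0.le
          refine ⟨by exact_mod_cast h4, ?_, ?_⟩
          · rw [div_le_iff₀ hg0]; linarith
          · rw [le_div_iff₀ hg0]; linarith)
        (by
          intro m hm
          rw [mem_dg _ _ _ hg.1] at hm
          exact Nat.Coprime.coprime_dvd_right hk'k (Nat.Coprime.coprime_mul_left (h𝓜 _ hm).2.2))
        (by
          intro m hm
          rw [mem_dg _ _ _ hg.1] at hm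
          exact Nat.Coprime.coprime_dvd_right hk'k (Nat.Coprime.coprime_mul_left (h𝓝 _ hm).2.2))
        H μ hH hμ (hcond H g hq1 hq2 hH0 hg1 hgG)
      refine h1.trans ?_
      apply mul_le_mul_of_nonneg_left _ (by positivity)
      rw [hB]
      have hl1 : 0 ≤ Real.log (N / g) := Real.log_nonneg hNg
      have hl2 : 0 ≤ Real.log (M / g) := Real.log_nonneg hMg
      have hl3 : Real.log (N / g) ≤ Real.log N :=
        Real.log_le_log (by positivity) (div_le_self hN0.le hg1)
      have hl4 : Real.log (M / g) ≤ Real.log M :=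
        Real.log_le_log (by positivity) (div_le_self hM0.le hg1)
      gcongr)
  refine key.trans ?_
  have hΔ0 : (0 : ℝ) < Δ := by exact_mod_cast hΔ
  apply mul_le_mul_of_nonneg_left _ (by positivity)
  have hG0' : (0 : ℝ) < G := by linarith
  have hG00 : (0 : ℝ) < G0 := by linarith
  have e1 : (8 : ℝ) / G ≤ 16 / G0 := by
    rw [div_le_div_iff₀ hG0' hG00]
    linarith
  have e2 : (1 : ℝ) / G ≤ 2 / G0 := by
    rw [div_le_div_iff₀ hG0' hG00]
    linarith
  have e3 : (18 : ℝ) / G0 = 16 / G0 + 2 / G0 := by ring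
  rw [e3]
  linarith

end Pool.Agent.P8H62.KV
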