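import Pool.Agent.P8H73.KV.Stm

set_option autoImplicit false

namespace Pool.Agent.P8H62.KV

open Finset Pool.Agent.Y844.BT Pool.Agent.P8H73.KV

open Classical in
/-- fibrewise count -/
theorem count_fib {α β : Type} (P : Finset α) (f g : α → β) (I : Finset β)
    (hI : ∀ v ∈ P, f v ∈ I) :
    ((P ×ˢ P).filter (fun z => f z.1 = g z.2)).card =
      ∑ c ∈ I, (P.filter (fun v => f v = c)).card * (P.filter (fun v => g v = c)).card := by
  have h2 : ∀ z ∈ (P ×ˢ P).filter (fun z => f z.1 = g z.2), f z.1 ∈ I := by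
    intro z hz
    rw [mem_filter, mem_product] at hz
    exact hI _ hz.1.1
  rw [card_eq_sum_card_fiberwise h2]
  apply sum_congr rfl
  intro c _
  rw [← card_product]
  congr 1
  ext z
  simp only [mem_filter, mem_product]
  constructor
  · rintro ⟨⟨⟨h3, h4⟩, h5⟩, h6⟩
    exact ⟨⟨h3, h6⟩, h4, h5 ▸ h6⟩
  · rintro ⟨⟨h3, h4⟩, h5, h6⟩
    exact ⟨⟨⟨h3, h5⟩, h4.trans h6.symm⟩, h4⟩

open Classical in
/-- coincidences -/
noncomputable def coS {α β : Type} (P : Finset α) (f g : α → β) : Finset (α × α) :=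
  (P ×ˢ P).filter (fun z => f z.1 = g z.2)

theorem mem_coS {α β : Type} (P : Finset α) (f g : α → β) (z : α × α) :
    z ∈ coS P f g ↔ z ∈ P ×ˢ P ∧ f z.1 = g z.2 := by
  classical
  unfold coS
  exact mem_filter

open Classical in
/-- the inequality of Cauchy for coincidences -/
theorem cs {α β : Type} (P : Finset α) (f g : α → β) :
    2 * (coS P f g).card ≤ (coS P f f).card + (coS P g g).card := by
  unfold coS
  set I := P.image f ∪ P.image g with hI
  have hf : ∀ v ∈ P, f v ∈ I := fun v hv => mem_union_left _ (mem_image_of_mem _ hv)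
  have hg : ∀ v ∈ P, g v ∈ I := fun v hv => mem_union_right _ (mem_image_of_mem _ hv)
  rw [count_fib P f g I hf, count_fib P f f I hf, count_fib P g g I hg, mul_sum, ← sum_add_distrib]
  apply sum_le_sum
  intro c _
  set a := (P.filter (fun v => f v = c)).card
  set b := (P.filter (fun v => g v = c)).card
  have h1 : (2 : ℤ) * (a * b) ≤ a * a + b * b := by nlinarith [sq_nonneg ((a : ℤ) - b)]
  exact_mod_cast h1

open Classical in
/-- the diagonal range -/
theorem enu_small {C : ℝ} (hC : ∀ (r N : ℕ), 1 ≤ r → 1 ≤ N →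
    (((Fintype.piFinset (fun _ : Fin r => Icc 1 N)).filter (fun f => Pw (∏ i, f i))).card : ℝ) ≤
    (N : ℝ) ^ ((r : ℝ) / 2) * (C * (1 + r * Real.log N)) ^ (3 * r ^ 2)) (hC1 : 1 ≤ C)
    (s k : ℕ) (N ρ : ℝ) (A : Finset ℕ) (hs : 1 ≤ s) (hN : 1 ≤ N)
    (hA : ∀ n ∈ A, (1 ≤ n ∧ (n : ℝ) ≤ N) ∧ Nat.Coprime n k) (hρ : N ^ (2 * s) * ρ < k) :
    (En k A s ρ : ℝ) ≤ N ^ s * (2 * C * (1 + s * Real.log N)) ^ (12 * s ^ 2) := by
  set M : ℕ := ⌊N⌋₊ with hM
  have hM1 : 1 ≤ M := Nat.le_floor (by simpa using hN)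
  have hMN : (M : ℝ) ≤ N := Nat.floor_le (by linarith)
  have hM1' : (1 : ℝ) ≤ M := by exact_mod_cast hM1
  have h1 := hC (s + s) M (by omega) hM1
  have hA' : ∀ n ∈ A, 1 ≤ n ∧ n ≤ M := fun n hn => ⟨(hA n hn).1.1, Nat.le_floor (hA n hn).1.2⟩
  have hcard : En k A s ρ ≤
      ((Fintype.piFinset (fun _ : Fin (s + s) => Icc 1 M)).filter (fun f => Pw (∏ i, f i))).card := by
    unfold En
    apply card_le_card_of_injOn (fun v => Fin.append v.1 v.2)
    · intro v hv
      rw [mem_coe, mem_filter, mem_product, Fintype.mem_piFinset, Fintype.mem_piFinset] at hv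
      obtain ⟨⟨hv1, hv2⟩, hv3, hv4⟩ := hv
      have hmem : ∀ i, (Sum.elim v.1 v.2) i ∈ A := by
        rintro (i | i)
        · exact hv1 i
        · exact hv2 i
      rw [mem_coe, mem_filter, Fintype.mem_piFinset]
      refine ⟨?_, ?_⟩
      · intro i
        refine Fin.addCases (fun i => ?_) (fun i => ?_) i
        · show Fin.append v.1 v.2 (Fin.castAdd s i) ∈ Icc 1 M
          rw [Fin.append_left]; exact mem_Icc.2 (hA' _ (hv1 i))
        · show Fin.append v.1 v.2 (Fin.natAdd s i) ∈ Icc 1 M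
          rw [Fin.append_right]; exact mem_Icc.2 (hA' _ (hv2 i))
      have hprod : ∏ i, Fin.append v.1 v.2 i = ∏ i, (Sum.elim v.1 v.2) i := by
        rw [Fin.prod_univ_add, Fintype.prod_sum_type]
        simp only [Fin.append_left, Fin.append_right, Sum.elim_inl, Sum.elim_inr]
      show Pw (∏ i, Fin.append v.1 v.2 i)
      rw [hprod]
      set σ : Fin s ⊕ Fin s → ℤ := Sum.elim (fun _ => 1) (fun _ => -1) with hσ
      have hf : ∀ i, 0 < (Sum.elim v.1 v.2) i := fun i => (hA' _ (hmem i)).1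
      apply Pw_of_zero _ σ _ hf
      · apply zero_of_close _ σ hf k (fun i => (hA _ (hmem i)).2) _ ρ _ _
        · rw [Fintype.sum_sum_type]
          simp only [hσ, Sum.elim_inl, Sum.elim_inr, Int.cast_one, one_mul, Int.cast_neg, neg_mul]
          rw [hv3, sum_neg_distrib, add_neg_cancel]
        · rw [Fintype.sum_sum_type]
          simp only [hσ, Sum.elim_inl, Sum.elim_inr, Int.cast_one, Int.cast_neg, neg_div]
          rw [sum_neg_distrib, ← sub_eq_add_neg]
          exact hv4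
        · refine lt_of_le_of_lt ?_ hρ
          have hρ0 : 0 ≤ ρ := (abs_nonneg _).trans hv4
          apply mul_le_mul_of_nonneg_right _ hρ0
          have h2 : ∏ j, (Sum.elim v.1 v.2) j ≤ M ^ (2 * s) := by
            have h3 : M ^ (2 * s) = ∏ _j : Fin s ⊕ Fin s, M := by
              rw [prod_const, card_univ, Fintype.card_sum, Fintype.card_fin]
              congr 1
              ring
            rw [h3]
            exact Finset.prod_le_prod' fun i _ => (hA' _ (hmem i)).2
          calc ((∏ j, (Sum.elim v.1 v.2) j : ℕ) : ℝ) ≤ ((M ^ (2 * s) : ℕ) : ℝ) := by exact_mod_cast h2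
            _ = (M : ℝ) ^ (2 * s) := by push_cast; rfl
            _ ≤ N ^ (2 * s) := by gcongr
      · rintro (i | i)
        · left; rfl
        · right; rfl
    · intro v _ w _ h
      have h0 : Fin.append v.1 v.2 = Fin.append w.1 w.2 := h
      have h1 : v.1 = w.1 := by
        funext i
        have := congrFun h0 (Fin.castAdd s i)
        rwa [Fin.append_left, Fin.append_left] at this
      have h2 : v.2 = w.2 := by
        funext i
        have := congrFun h0 (Fin.natAdd s i)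
        rwa [Fin.append_right, Fin.append_right] at this
      exact Prod.ext h1 h2
  have hlogM : 0 ≤ Real.log M := Real.log_nonneg hM1'
  have hlog : Real.log M ≤ Real.log N := Real.log_le_log (by linarith) hMN
  have hs0 : (1 : ℝ) ≤ s := by exact_mod_cast hs
  calc (En k A s ρ : ℝ) ≤ (((Fintype.piFinset (fun _ : Fin (s + s) => Icc 1 M)).filter
        (fun f => Pw (∏ i, f i))).card : ℝ) := by exact_mod_cast hcard
    _ ≤ (M : ℝ) ^ (((s + s : ℕ) : ℝ) / 2) *
        (C * (1 + ((s + s : ℕ) : ℝ) * Real.log M)) ^ (3 * (s + s) ^ 2) := h1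
    _ = (M : ℝ) ^ s * (C * (1 + ((s + s : ℕ) : ℝ) * Real.log M)) ^ (12 * s ^ 2) := by
        congr 1
        · rw [← Real.rpow_natCast]
          congr 1
          push_cast
          ring
        · congr 1
          ring
    _ ≤ N ^ s * (2 * C * (1 + s * Real.log N)) ^ (12 * s ^ 2) := by
        apply mul_le_mul
        · gcongr
        · apply pow_le_pow_left₀
          · positivity
          · push_cast
            have e1 : ((s : ℝ) + s) * Real.log M ≤ 2 * (s * Real.log N) := by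
              calc ((s : ℝ) + s) * Real.log M = 2 * (s * Real.log M) := by ring
                _ ≤ 2 * (s * Real.log N) := by gcongr
            calc C * (1 + ((s : ℝ) + s) * Real.log M) ≤ C * (2 * (1 + s * Real.log N)) := by
                  apply mul_le_mul_of_nonneg_left _ (by linarith)
                  linarith
              _ = _ := by ring
        · positivity
        · positivity

/-- cells -/
theorem cell_le {x y r : ℝ} (h : |x - y| ≤ r) : |⌊x⌋ - ⌊y⌋| ≤ ⌊r⌋ + 1 := by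
  have h1 := abs_le.1 h
  rw [abs_le]
  constructor
  · have : ⌊y⌋ - ⌊x⌋ - 1 ≤ ⌊r⌋ := by
      rw [Int.le_floor]
      push_cast
      linarith [Int.floor_le y, Int.lt_floor_add_one x]
    linarith
  · have : ⌊x⌋ - ⌊y⌋ - 1 ≤ ⌊r⌋ := by
      rw [Int.le_floor]
      push_cast
      linarith [Int.floor_le x, Int.lt_floor_add_one y]
    linarith

theorem cell_close {x y ρ : ℝ} (hρ : 0 < ρ) (h : ⌊x / ρ⌋ = ⌊y / ρ⌋) : |x - y| ≤ ρ := by
  have h1 := Int.abs_sub_lt_one_of_floor_eq_floor h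
  have h2 : x - y = ρ * (x / ρ - y / ρ) := by field_simp
  rw [h2, abs_mul, abs_of_pos hρ]
  nlinarith

open Classical in
/-- changing the radius -/
theorem enu_cells (k : ℕ) (A : Finset ℕ) (s : ℕ) (ρ ρ0 : ℝ) (hρ : 0 ≤ ρ) (hρ0 : 0 < ρ0) :
    (En k A s ρ : ℝ) ≤ (2 * (ρ / ρ0) + 3) * En k A s ρ0 := by
  set P := Fintype.piFinset (fun _ : Fin s => A) with hP
  set f : (Fin s → ℕ) → ZMod k × ℤ := fun v => (xm k v, ⌊xi v / ρ0⌋) with hf
  set D : ℤ := ⌊ρ / ρ0⌋ + 1 with hD
  have hD0 : 0 ≤ D := by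
    have : 0 ≤ ⌊ρ / ρ0⌋ := Int.floor_nonneg.2 (by positivity)
    omega
  set g : ℤ → (Fin s → ℕ) → ZMod k × ℤ := fun d v => (xm k v, ⌊xi v / ρ0⌋ - d) with hg
  have h1 : En k A s ρ ≤ ∑ d ∈ Icc (-D) D, (coS P f (g d)).card := by
    refine le_trans ?_ (card_biUnion_le)
    unfold En
    apply card_le_card
    intro z hz
    rw [mem_filter] at hz
    obtain ⟨hz1, hz2, hz3⟩ := hz
    rw [mem_biUnion]
    have h3 : |xi z.1 / ρ0 - xi z.2 / ρ0| ≤ ρ / ρ0 := by
      rw [← sub_div, abs_div, abs_of_pos hρ0]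
      exact div_le_div_of_nonneg_right hz3 hρ0.le
    have h4 := cell_le h3
    refine ⟨⌊xi z.2 / ρ0⌋ - ⌊xi z.1 / ρ0⌋, ?_, ?_⟩
    · rw [abs_sub_comm] at h4
      rw [mem_Icc]
      exact abs_le.1 h4
    · rw [mem_coS]
      refine ⟨hz1, ?_⟩
      simp only [hf, hg]
      refine Prod.ext hz2 ?_
      simp
  have h2 : ∀ d, (coS P f (g d)).card ≤ En k A s ρ0 := by
    intro d
    have h3 := cs P f (g d)
    have h4 : coS P (g d) (g d) = coS P f f := by
      ext z
      rw [mem_coS, mem_coS]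
      simp only [hf, hg, Prod.mk.injEq]
      constructor
      · rintro ⟨h0, h5, h6⟩
        exact ⟨h0, h5, by omega⟩
      · rintro ⟨h0, h5, h6⟩
        exact ⟨h0, h5, by omega⟩
    rw [h4] at h3
    have h5 : (coS P f f).card ≤ En k A s ρ0 := by
      unfold En
      apply card_le_card
      intro z hz
      rw [mem_coS] at hz
      rw [mem_filter]
      obtain ⟨hz1, hz2⟩ := hz
      simp only [hf, Prod.mk.injEq] at hz2
      exact ⟨hz1, hz2.1, cell_close hρ0 hz2.2⟩
    omega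
  have h3 : En k A s ρ ≤ (2 * D + 1).toNat * En k A s ρ0 := by
    refine h1.trans ((sum_le_sum fun d _ => h2 d).trans (le_of_eq ?_))
    rw [sum_const, smul_eq_mul, Int.card_Icc]
    congr 2
    ring
  have h4 : (((2 * D + 1).toNat : ℕ) : ℝ) = 2 * D + 1 := by
    have h5 : ((2 * D + 1).toNat : ℤ) = 2 * D + 1 := Int.toNat_of_nonneg (by omega)
    have h6 : (((2 * D + 1).toNat : ℕ) : ℝ) = ((2 * D + 1 : ℤ) : ℝ) := by
      rw [← h5]
      push_cast
      rfl
    rw [h6]
    push_cast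
    ring
  calc (En k A s ρ : ℝ) ≤ (((2 * D + 1).toNat * En k A s ρ0 : ℕ) : ℝ) := by exact_mod_cast h3
    _ = (2 * D + 1) * En k A s ρ0 := by
        push_cast
        rw [h4]
    _ ≤ _ := by
        apply mul_le_mul_of_nonneg_right _ (Nat.cast_nonneg _)
        have : (⌊ρ / ρ0⌋ : ℝ) ≤ ρ / ρ0 := Int.floor_le _
        rw [hD]
        push_cast
        linarith

theorem enu : S_CPW → S_ENU := by
  rintro ⟨C, hC1, hC⟩
  refine ⟨14 * C, by linarith, ?_⟩
  intro s k N ρ A hs hk hN hρ hA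
  have hk0 : (0 : ℝ) < k := by exact_mod_cast hk
  have hN0 : (0 : ℝ) < N := by linarith
  set ρ0 : ℝ := k / (2 * N ^ (2 * s)) with hρ0
  have hρ00 : 0 < ρ0 := by positivity
  have h1 : (En k A s ρ0 : ℝ) ≤ N ^ s * (2 * C * (1 + s * Real.log N)) ^ (12 * s ^ 2) := by
    apply enu_small hC hC1 s k N ρ0 A hs hN hA
    rw [hρ0]
    have : N ^ (2 * s) * (k / (2 * N ^ (2 * s))) = k / 2 := by
      field_simp
    rw [this]
    linarith
  have h2 := enu_cells k A s ρ ρ0 hρ hρ00
  set Q : ℝ := N ^ (2 * s) * ρ / k with hQ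
  have hQ0 : 0 ≤ Q := by positivity
  have h3 : ρ / ρ0 = 2 * Q := by
    rw [hρ0, hQ]
    field_simp
  rw [h3] at h2
  have hlog : 0 ≤ Real.log N := Real.log_nonneg hN
  set L : ℝ := 1 + s * Real.log N with hL
  have hL1 : 1 ≤ L := by
    rw [hL]
    have : (0 : ℝ) ≤ s * Real.log N := by positivity
    linarith
  have hs2 : 1 ≤ s ^ 2 := Nat.one_le_pow _ _ hs
  have h4 : 7 * (2 * C * L) ^ (12 * s ^ 2) ≤ (14 * C * L) ^ (13 * s ^ 2) := by
    have e1 : 13 * s ^ 2 = 12 * s ^ 2 + s ^ 2 := by ring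
    have hX : 14 ≤ 14 * C * L := by nlinarith
    rw [e1, pow_add]
    have e2 : (2 * C * L) ^ (12 * s ^ 2) ≤ (14 * C * L) ^ (12 * s ^ 2) := by
      apply pow_le_pow_left₀ (by positivity)
      have : 0 ≤ C * L := by positivity
      nlinarith
    have e3 : (7 : ℝ) ≤ (14 * C * L) ^ (s ^ 2) := by
      calc (7 : ℝ) ≤ 14 * C * L := by linarith
        _ = (14 * C * L) ^ 1 := (pow_one _).symm
        _ ≤ (14 * C * L) ^ (s ^ 2) := pow_le_pow_right₀ (by linarith) hs2
    calc 7 * (2 * C * L) ^ (12 * s ^ 2) ≤ (14 * C * L) ^ (s ^ 2) * (14 * C * L) ^ (12 * s ^ 2) :=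
          mul_le_mul e3 e2 (by positivity) (by positivity)
      _ = _ := by ring
  calc (En k A s ρ : ℝ) ≤ (2 * (2 * Q) + 3) * En k A s ρ0 := h2
    _ ≤ (2 * (2 * Q) + 3) * (N ^ s * (2 * C * L) ^ (12 * s ^ 2)) :=
        mul_le_mul_of_nonneg_left h1 (by positivity)
    _ ≤ (7 * (1 + Q)) * (N ^ s * (2 * C * L) ^ (12 * s ^ 2)) := by
        apply mul_le_mul_of_nonneg_right _ (by positivity)
        linarith
    _ = (1 + Q) * N ^ s * (7 * (2 * C * L) ^ (12 * s ^ 2)) := by ring
    _ ≤ (1 + Q) * N ^ s * (14 * C * L) ^ (13 * s ^ 2) :=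
        mul_le_mul_of_nonneg_left h4 (by positivity)

end Pool.Agent.P8H62.KV
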